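import Mathlib

/-!
# liminf A(n) / n^(1/3) for infinite B_3-sets: the counting inequality
-/

set_option autoImplicit false

open Finset

namespace Pool.Agent.B3

/-- the family `b` on the indices `I` has distinct sums of three elements -/
def B3 (I : Finset ℕ) (b : ℕ → ℕ) : Prop := ∀ i ∈ I, ∀ j ∈ I, ∀ k ∈ I, ∀ i' ∈ I, ∀ j' ∈ I, ∀ k' ∈ I,
  b i + b j + b k = b i' + b j' + b k' → ({i, j, k} : Multiset ℕ) = {i', j', k'}

/-- pairs with the sum in the window `(t - u, t]` -/
def Pt (I : Finset ℕ) (b : ℕ → ℕ) (u t : ℕ) : Finset (ℕ × ℕ) :=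
  (I ×ˢ I).filter fun p => b p.1 + b p.2 ≤ t ∧ t < b p.1 + b p.2 + u

/-- quadruples for a fixed `k` -/
def Qk (I : Finset ℕ) (b : ℕ → ℕ) (u : ℕ) (R : Finset ℕ) (k : ℕ) : Finset ((ℕ × ℕ) × ℕ × ℕ) :=
  ((I ×ˢ I) ×ˢ I ×ˢ R).filter fun q => (b q.1.1 + b q.1.2 ≤ q.2.2 ∧ q.2.2 < b q.1.1 + b q.1.2 + u) ∧
    (b k + b q.2.1 ≤ q.2.2 ∧ q.2.2 < b k + b q.2.1 + u)

theorem mult_eq {i j k i' j' k' : ℕ} (h : ({i, j, k} : Multiset ℕ) = {i', j', k'}) (hki : k' ≠ i) (hkj : k' ≠ j) :
    k = k' ∧ ((i = i' ∧ j = j') ∨ (i = j' ∧ j = i')) := by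
  have h1 : k' ∈ ({i, j, k} : Multiset ℕ) := by
    rw [h]
    simp
  have hk : k' = k := by
    simp only [Multiset.insert_eq_cons, Multiset.mem_cons, Multiset.mem_singleton] at h1
    rcases h1 with h1 | h1 | h1
    · exact absurd h1 hki
    · exact absurd h1 hkj
    · exact h1
  subst hk
  refine ⟨rfl, ?_⟩
  have h2 : ({i, j} : Multiset ℕ) = {i', j'} := by
    have h3 : (k' ::ₘ {i, j} : Multiset ℕ) = k' ::ₘ {i', j'} := by
      have e1 : ({i, j, k'} : Multiset ℕ) = k' ::ₘ {i, j} := by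
        simp only [Multiset.insert_eq_cons]
        rw [Multiset.cons_swap k' i]
        congr 1
        rw [← Multiset.cons_zero, ← Multiset.cons_zero, Multiset.cons_swap]
      have e2 : ({i', j', k'} : Multiset ℕ) = k' ::ₘ {i', j'} := by
        simp only [Multiset.insert_eq_cons]
        rw [Multiset.cons_swap k' i']
        congr 1
        rw [← Multiset.cons_zero, ← Multiset.cons_zero, Multiset.cons_swap]
      rw [← e1, ← e2]
      exact h
    exact (Multiset.cons_inj_right k').1 h3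
  simp only [Multiset.insert_eq_cons] at h2
  rw [Multiset.cons_eq_cons] at h2
  rcases h2 with ⟨h3, h4⟩ | ⟨_, cs, h3, h4⟩
  · exact Or.inl ⟨h3, Multiset.singleton_inj.1 h4⟩
  · right
    rw [Multiset.singleton_eq_cons_iff] at h3 h4
    exact ⟨h4.1.symm, h3.1⟩

theorem card_Qk (I : Finset ℕ) (b : ℕ → ℕ) (hb : B3 I b) (u : ℕ) (R : Finset ℕ) (k : ℕ) (hk : k ∈ I) :
    (Qk I b u R k).card ≤ 2 * u ^ 2 + 2 * I.card ^ 2 * u := by
  classical
  set s1 := (Qk I b u R k).filter fun q => q.2.1 = q.1.1 with hs1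
  set s2 := (Qk I b u R k).filter fun q => q.2.1 = q.1.2 with hs2
  set s3 := (Qk I b u R k).filter fun q => q.2.1 ≠ q.1.1 ∧ q.2.1 ≠ q.1.2 with hs3
  have hsub : Qk I b u R k ⊆ s3 ∪ (s1 ∪ s2) := by
    intro q hq
    rw [Finset.mem_union, Finset.mem_union, hs1, hs2, hs3, Finset.mem_filter, Finset.mem_filter, Finset.mem_filter]
    by_cases h1 : q.2.1 = q.1.1
    · exact Or.inr (Or.inl ⟨hq, h1⟩)
    · by_cases h2 : q.2.1 = q.1.2
      · exact Or.inr (Or.inr ⟨hq, h2⟩)
      · exact Or.inl ⟨hq, h1, h2⟩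
  -- trivial quadruples
  have htriv : ∀ s : Finset ((ℕ × ℕ) × ℕ × ℕ), s ⊆ Qk I b u R k → (∀ q ∈ s, q.2.1 = q.1.1) → s.card ≤ I.card ^ 2 * u := by
    intro s hs hq
    have h1 : s.card ≤ ((I ×ˢ I) ×ˢ range u).card := by
      refine Finset.card_le_card_of_injOn (fun q => (q.1, q.2.2 - (b q.1.1 + b q.1.2))) ?_ ?_
      · intro q hq'
        have h2 := hs hq'
        unfold Qk at h2
        rw [Finset.mem_filter, Finset.mem_product, Finset.mem_product] at h2
        rw [Finset.mem_coe, Finset.mem_product, Finset.mem_range]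
        exact ⟨Finset.mem_product.2 h2.1.1, by dsimp only; omega⟩
      · intro q hq' q' hq'' h
        have h2 := hs hq'
        have h3 := hs hq''
        unfold Qk at h2 h3
        rw [Finset.mem_filter, Finset.mem_product, Finset.mem_product] at h2 h3
        have h4 := hq q hq'
        have h5 := hq q' hq''
        obtain ⟨⟨i, j⟩, l, t⟩ := q
        obtain ⟨⟨i', j'⟩, l', t'⟩ := q'
        simp only [Prod.mk.injEq] at h
        simp only at h2 h3 h4 h5
        obtain ⟨⟨h6, h7⟩, h8⟩ := h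
        subst h6 h7 h4
        have h9 : t = t' := by omega
        rw [h9, h5]
    rw [Finset.card_product, Finset.card_product, Finset.card_range] at h1
    calc s.card ≤ I.card * I.card * u := h1
      _ = I.card ^ 2 * u := by ring
  have htriv2 : ∀ s : Finset ((ℕ × ℕ) × ℕ × ℕ), s ⊆ Qk I b u R k → (∀ q ∈ s, q.2.1 = q.1.2) → s.card ≤ I.card ^ 2 * u := by
    intro s hs hq
    have h1 : s.card ≤ ((I ×ˢ I) ×ˢ range u).card := by
      refine Finset.card_le_card_of_injOn (fun q => (q.1, q.2.2 - (b q.1.1 + b q.1.2))) ?_ ?_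
      · intro q hq'
        have h2 := hs hq'
        unfold Qk at h2
        rw [Finset.mem_filter, Finset.mem_product, Finset.mem_product] at h2
        rw [Finset.mem_coe, Finset.mem_product, Finset.mem_range]
        exact ⟨Finset.mem_product.2 h2.1.1, by dsimp only; omega⟩
      · intro q hq' q' hq'' h
        have h2 := hs hq'
        have h3 := hs hq''
        unfold Qk at h2 h3
        rw [Finset.mem_filter, Finset.mem_product, Finset.mem_product] at h2 h3
        have h4 := hq q hq'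
        have h5 := hq q' hq''
        obtain ⟨⟨i, j⟩, l, t⟩ := q
        obtain ⟨⟨i', j'⟩, l', t'⟩ := q'
        simp only [Prod.mk.injEq] at h
        simp only at h2 h3 h4 h5
        obtain ⟨⟨h6, h7⟩, h8⟩ := h
        subst h6 h7 h4
        have h9 : t = t' := by omega
        rw [h9, h5]
    rw [Finset.card_product, Finset.card_product, Finset.card_range] at h1
    calc s.card ≤ I.card * I.card * u := h1
      _ = I.card ^ 2 * u := by ring
  have hc1 : s1.card ≤ I.card ^ 2 * u := htriv s1 (Finset.filter_subset _ _) fun q hq => (Finset.mem_filter.1 hq).2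
  have hc2 : s2.card ≤ I.card ^ 2 * u := htriv2 s2 (Finset.filter_subset _ _) fun q hq => (Finset.mem_filter.1 hq).2
  -- non trivial quadruples
  have hc3 : s3.card ≤ 2 * u ^ 2 := by
    have h1 := Finset.card_le_mul_card_image (f := fun q : (ℕ × ℕ) × ℕ × ℕ =>
      (q.2.2 - (b q.1.1 + b q.1.2), q.2.2 - (b k + b q.2.1))) s3 2 ?_
    · have h2 : (s3.image fun q : (ℕ × ℕ) × ℕ × ℕ => (q.2.2 - (b q.1.1 + b q.1.2), q.2.2 - (b k + b q.2.1))) ⊆
          range u ×ˢ range u := by
        intro z hz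
        rw [Finset.mem_image] at hz
        obtain ⟨q, hq, rfl⟩ := hz
        have h2 := (Finset.mem_filter.1 hq).1
        unfold Qk at h2
        rw [Finset.mem_filter, Finset.mem_product, Finset.mem_product] at h2
        rw [Finset.mem_product, Finset.mem_range, Finset.mem_range]
        constructor
        · dsimp only
          omega
        · dsimp only
          omega
      have h3 := Finset.card_le_card h2
      rw [Finset.card_product, Finset.card_range] at h3
      calc s3.card ≤ _ := h1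
        _ ≤ 2 * (u * u) := Nat.mul_le_mul_left 2 h3
        _ = 2 * u ^ 2 := by ring
    · intro z hz
      rw [Finset.mem_image] at hz
      obtain ⟨q0, hq0, hz0⟩ := hz
      have hsub2 : (s3.filter fun q : (ℕ × ℕ) × ℕ × ℕ => (q.2.2 - (b q.1.1 + b q.1.2), q.2.2 - (b k + b q.2.1)) = z) ⊆
          {q0, ((q0.1.2, q0.1.1), q0.2)} := by
        intro q hq
        rw [Finset.mem_filter] at hq
        obtain ⟨hq1, hq2⟩ := hq
        rw [← hz0] at hq2
        obtain ⟨⟨i, j⟩, l, t⟩ := q
        obtain ⟨⟨i', j'⟩, l', t'⟩ := q0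
        rw [hs3, Finset.mem_filter] at hq1 hq0
        unfold Qk at hq1 hq0
        rw [Finset.mem_filter, Finset.mem_product, Finset.mem_product, Finset.mem_product] at hq1 hq0
        simp only [Prod.mk.injEq] at hq1 hq0 hq2
        obtain ⟨⟨⟨⟨hi, hj⟩, hl, ht⟩, ⟨h1, h2⟩, h3, h4⟩, hn1, hn2⟩ := hq1
        obtain ⟨⟨⟨⟨hi', hj'⟩, hl', ht'⟩, ⟨h1', h2'⟩, h3', h4'⟩, hn1', hn2'⟩ := hq0
        have h5 : b i + b j + b l' = b i' + b j' + b l := by omega
        have h6 := hb i hi j hj l' hl' i' hi' j' hj' l hl h5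
        obtain ⟨h7, h8⟩ := mult_eq h6 hn1 hn2
        subst h7
        have h9 : t = t' := by omega
        subst h9
        rw [Finset.mem_insert, Finset.mem_singleton]
        rcases h8 with ⟨rfl, rfl⟩ | ⟨rfl, rfl⟩
        · left; rfl
        · right; rfl
      exact (Finset.card_le_card hsub2).trans Finset.card_le_two
  calc (Qk I b u R k).card ≤ (s3 ∪ (s1 ∪ s2)).card := Finset.card_le_card hsub
    _ ≤ s3.card + (s1 ∪ s2).card := Finset.card_union_le _ _
    _ ≤ s3.card + (s1.card + s2.card) := Nat.add_le_add_left (Finset.card_union_le _ _) _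
    _ ≤ 2 * u ^ 2 + (I.card ^ 2 * u + I.card ^ 2 * u) := Nat.add_le_add hc3 (Nat.add_le_add hc1 hc2)
    _ = 2 * u ^ 2 + 2 * I.card ^ 2 * u := by ring

end Pool.Agent.B3
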