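import Pool.Agent.helper74.B3.Core

/-!
# liminf A(n) / n^(1/3) for infinite B_3-sets: the weighted inequality
-/

set_option autoImplicit false

open Finset

namespace Pool.Agent.B3

/-- the sum of the pair `p` is in the window `(t - u, t]` -/
def chi (b : ℕ → ℕ) (u : ℕ) (p : ℕ × ℕ) (t : ℕ) : ℝ := if b p.1 + b p.2 ≤ t ∧ t < b p.1 + b p.2 + u then 1 else 0

noncomputable def TT (I : Finset ℕ) (b : ℕ → ℕ) (w : ℕ → ℝ) (u t : ℕ) : ℝ :=
  ∑ p ∈ I ×ˢ I, chi b u p t * √(w p.1 + w p.2)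

theorem chi_nonneg (b : ℕ → ℕ) (u : ℕ) (p : ℕ × ℕ) (t : ℕ) : 0 ≤ chi b u p t := by
  unfold chi
  split_ifs <;> norm_num

theorem chi_sq (b : ℕ → ℕ) (u : ℕ) (p : ℕ × ℕ) (t : ℕ) : chi b u p t * chi b u p t = chi b u p t := by
  unfold chi
  split_ifs <;> norm_num

theorem chi_swap (b : ℕ → ℕ) (u i j t : ℕ) : chi b u (i, j) t = chi b u (j, i) t := by
  unfold chi
  simp only [add_comm (b i) (b j)]

theorem TT_sq (I : Finset ℕ) (b : ℕ → ℕ) (w : ℕ → ℝ) (hw : ∀ i, 0 ≤ w i) (u t : ℕ) :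
    (TT I b w u t) ^ 2 ≤ (∑ p ∈ I ×ˢ I, chi b u p t) * ∑ p ∈ I ×ˢ I, chi b u p t * (w p.1 + w p.2) := by
  have h1 := Finset.sum_mul_sq_le_sq_mul_sq (I ×ˢ I) (fun p => chi b u p t) (fun p => chi b u p t * √(w p.1 + w p.2))
  have e1 : ∀ p : ℕ × ℕ, chi b u p t * (chi b u p t * √(w p.1 + w p.2)) = chi b u p t * √(w p.1 + w p.2) := by
    intro p
    rw [← mul_assoc, chi_sq]
  have e2 : ∀ p : ℕ × ℕ, chi b u p t ^ 2 = chi b u p t := by
    intro p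
    rw [pow_two, chi_sq]
  have e3 : ∀ p : ℕ × ℕ, (chi b u p t * √(w p.1 + w p.2)) ^ 2 = chi b u p t * (w p.1 + w p.2) := by
    intro p
    rw [mul_pow, e2, Real.sq_sqrt (add_nonneg (hw _) (hw _))]
  simp only [e1, e2, e3] at h1
  exact h1

theorem card_Qk_eq (I : Finset ℕ) (b : ℕ → ℕ) (u : ℕ) (R : Finset ℕ) (k : ℕ) :
    ((Qk I b u R k).card : ℝ) = ∑ t ∈ R, (∑ p ∈ I ×ˢ I, chi b u p t) * ∑ l ∈ I, chi b u (k, l) t := by
  unfold Qk
  rw [← Finset.sum_boole, Finset.sum_product]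
  have h1 : ∀ p : ℕ × ℕ, ∑ y ∈ I ×ˢ R, (if (b p.1 + b p.2 ≤ y.2 ∧ y.2 < b p.1 + b p.2 + u) ∧
      (b k + b y.1 ≤ y.2 ∧ y.2 < b k + b y.1 + u) then (1 : ℝ) else 0) =
      ∑ t ∈ R, chi b u p t * ∑ l ∈ I, chi b u (k, l) t := by
    intro p
    rw [Finset.sum_product, Finset.sum_comm]
    refine Finset.sum_congr rfl fun t _ => ?_
    rw [Finset.mul_sum]
    refine Finset.sum_congr rfl fun l _ => ?_
    unfold chi
    dsimp only
    by_cases h2 : b p.1 + b p.2 ≤ t ∧ t < b p.1 + b p.2 + u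
    · by_cases h3 : b k + b l ≤ t ∧ t < b k + b l + u
      · rw [if_pos ⟨h2, h3⟩, if_pos h2, if_pos h3, mul_one]
      · rw [if_neg (fun h => h3 h.2), if_neg h3, mul_zero]
    · rw [if_neg (fun h => h2 h.1), if_neg h2, zero_mul]
  rw [Finset.sum_congr rfl fun p _ => h1 p, Finset.sum_comm]
  refine Finset.sum_congr rfl fun t _ => ?_
  rw [Finset.sum_mul]

theorem sum_NF (I : Finset ℕ) (b : ℕ → ℕ) (w : ℕ → ℝ) (u : ℕ) (R : Finset ℕ) :
    ∑ t ∈ R, (∑ p ∈ I ×ˢ I, chi b u p t) * ∑ p ∈ I ×ˢ I, chi b u p t * (w p.1 + w p.2) =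
      2 * ∑ k ∈ I, w k * (Qk I b u R k).card := by
  have h1 : ∀ t, ∑ p ∈ I ×ˢ I, chi b u p t * (w p.1 + w p.2) = 2 * ∑ k ∈ I, w k * ∑ l ∈ I, chi b u (k, l) t := by
    intro t
    have e1 : ∑ p ∈ I ×ˢ I, chi b u p t * (w p.1 + w p.2) =
        ∑ k ∈ I, ∑ l ∈ I, w k * chi b u (k, l) t + ∑ k ∈ I, ∑ l ∈ I, w l * chi b u (k, l) t := by
      rw [Finset.sum_product, ← Finset.sum_add_distrib]
      refine Finset.sum_congr rfl fun k _ => ?_
      rw [← Finset.sum_add_distrib]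
      refine Finset.sum_congr rfl fun l _ => ?_
      ring
    have e2 : ∑ k ∈ I, ∑ l ∈ I, w l * chi b u (k, l) t = ∑ k ∈ I, ∑ l ∈ I, w k * chi b u (k, l) t := by
      rw [Finset.sum_comm]
      refine Finset.sum_congr rfl fun k _ => Finset.sum_congr rfl fun l _ => ?_
      rw [chi_swap]
    rw [e1, e2, two_mul]
    simp only [Finset.mul_sum]
  simp only [h1, card_Qk_eq]
  rw [Finset.mul_sum]
  have h2 : ∀ k, 2 * (w k * ∑ t ∈ R, (∑ p ∈ I ×ˢ I, chi b u p t) * ∑ l ∈ I, chi b u (k, l) t) =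
      ∑ t ∈ R, 2 * (w k * ((∑ p ∈ I ×ˢ I, chi b u p t) * ∑ l ∈ I, chi b u (k, l) t)) := by
    intro k
    rw [Finset.mul_sum, Finset.mul_sum]
  rw [Finset.sum_congr rfl fun k _ => h2 k, Finset.sum_comm]
  refine Finset.sum_congr rfl fun t _ => ?_
  rw [Finset.mul_sum, Finset.mul_sum]
  refine Finset.sum_congr rfl fun k _ => ?_
  ring

theorem sum_TT (I : Finset ℕ) (b : ℕ → ℕ) (hb : B3 I b) (w : ℕ → ℝ) (hw : ∀ i, 0 ≤ w i) (u : ℕ) (R : Finset ℕ) :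
    ∑ t ∈ R, (TT I b w u t) ^ 2 ≤ (4 * (u : ℝ) ^ 2 + 4 * (I.card : ℝ) ^ 2 * u) * ∑ k ∈ I, w k := by
  refine (Finset.sum_le_sum fun t _ => TT_sq I b w hw u t).trans ?_
  rw [sum_NF, Finset.mul_sum, Finset.mul_sum]
  refine Finset.sum_le_sum fun k hk => ?_
  have h1 : ((Qk I b u R k).card : ℝ) ≤ 2 * (u : ℝ) ^ 2 + 2 * (I.card : ℝ) ^ 2 * u := by
    exact_mod_cast card_Qk I b hb u R k hk
  have h2 := mul_le_mul_of_nonneg_left h1 (hw k)
  linarith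

/-- the main inequality -/
theorem main_ineq (I : Finset ℕ) (b : ℕ → ℕ) (hb : B3 I b) (w : ℕ → ℝ) (hw : ∀ i, 0 ≤ w i) (u : ℕ) (hu : 1 ≤ u)
    (κ : ℕ → ℝ) (hκ : Antitone κ) (X : ℕ) (hX : ∀ i ∈ I, ∀ j ∈ I, b i + b j ≤ X) :
    2 * ∑ p ∈ I ×ˢ I, √(w p.1 + w p.2) * κ (b p.1 + b p.2) ≤
      u * κ 0 ^ 2 + ∑ s ∈ range X, κ s ^ 2 + (4 + 4 * (I.card : ℝ) ^ 2 / u) * ∑ k ∈ I, w k := by
  have hu0 : (0 : ℝ) < u := by exact_mod_cast hu
  have h1 := sum_TT I b hb w hw u (range (u + X))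
  -- the sum of the squares of the test function
  have h2 : ∑ t ∈ range (u + X), κ (t - u) ^ 2 = u * κ 0 ^ 2 + ∑ s ∈ range X, κ s ^ 2 := by
    rw [Finset.sum_range_add]
    congr 1
    · rw [Finset.sum_congr rfl (fun t ht => by
        rw [Finset.mem_range] at ht
        rw [Nat.sub_eq_zero_of_le ht.le] : ∀ t ∈ range u, κ (t - u) ^ 2 = κ 0 ^ 2)]
      rw [Finset.sum_const, Finset.card_range, nsmul_eq_mul]
    · refine Finset.sum_congr rfl fun s _ => ?_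
      rw [Nat.add_sub_cancel_left]
  -- the correlation
  have h3 : u * ∑ p ∈ I ×ˢ I, √(w p.1 + w p.2) * κ (b p.1 + b p.2) ≤ ∑ t ∈ range (u + X), κ (t - u) * TT I b w u t := by
    have e1 : ∑ t ∈ range (u + X), κ (t - u) * TT I b w u t =
        ∑ p ∈ I ×ˢ I, √(w p.1 + w p.2) * ∑ t ∈ range (u + X), κ (t - u) * chi b u p t := by
      unfold TT
      simp only [Finset.mul_sum]
      rw [Finset.sum_comm]
      refine Finset.sum_congr rfl fun p _ => Finset.sum_congr rfl fun t _ => ?_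
      ring
    rw [e1, Finset.mul_sum]
    refine Finset.sum_le_sum fun p hp => ?_
    rw [Finset.mem_product] at hp
    have hs := hX p.1 hp.1 p.2 hp.2
    have e2 : ∑ t ∈ range (u + X), κ (t - u) * chi b u p t = ∑ t ∈ Ico (b p.1 + b p.2) (b p.1 + b p.2 + u), κ (t - u) := by
      have e3 : Ico (b p.1 + b p.2) (b p.1 + b p.2 + u) ⊆ range (u + X) := by
        intro t ht
        rw [Finset.mem_Ico] at ht
        rw [Finset.mem_range]
        omega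
      rw [← Finset.sum_subset e3 (f := fun t => κ (t - u) * chi b u p t)]
      · refine Finset.sum_congr rfl fun t ht => ?_
        rw [Finset.mem_Ico] at ht
        unfold chi
        rw [if_pos ht, mul_one]
      · intro t _ ht
        rw [Finset.mem_Ico] at ht
        unfold chi
        rw [if_neg ht, mul_zero]
    have e4 : u * κ (b p.1 + b p.2) ≤ ∑ t ∈ range (u + X), κ (t - u) * chi b u p t := by
      rw [e2]
      have e5 : ∑ t ∈ Ico (b p.1 + b p.2) (b p.1 + b p.2 + u), κ (b p.1 + b p.2) = u * κ (b p.1 + b p.2) := by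
        rw [Finset.sum_const, Nat.card_Ico, nsmul_eq_mul]
        congr 2
        omega
      rw [← e5]
      refine Finset.sum_le_sum fun t ht => hκ ?_
      rw [Finset.mem_Ico] at ht
      omega
    calc u * (√(w p.1 + w p.2) * κ (b p.1 + b p.2)) = √(w p.1 + w p.2) * (u * κ (b p.1 + b p.2)) := by ring
      _ ≤ _ := mul_le_mul_of_nonneg_left e4 (Real.sqrt_nonneg _)
  -- the square
  have h4 : 2 * u * ∑ t ∈ range (u + X), κ (t - u) * TT I b w u t ≤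
      ∑ t ∈ range (u + X), (TT I b w u t) ^ 2 + (u : ℝ) ^ 2 * ∑ t ∈ range (u + X), κ (t - u) ^ 2 := by
    rw [Finset.mul_sum, Finset.mul_sum, ← Finset.sum_add_distrib]
    refine Finset.sum_le_sum fun t _ => ?_
    nlinarith [sq_nonneg (TT I b w u t - u * κ (t - u))]
  rw [h2] at h4
  set S := ∑ p ∈ I ×ˢ I, √(w p.1 + w p.2) * κ (b p.1 + b p.2) with hS
  set W := ∑ k ∈ I, w k with hW
  have h5 : (u : ℝ) ^ 2 * (2 * S) ≤ (u : ℝ) ^ 2 * (u * κ 0 ^ 2 + ∑ s ∈ range X, κ s ^ 2 + (4 + 4 * (I.card : ℝ) ^ 2 / u) * W) := by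
    have h6 : (u : ℝ) ^ 2 * ((4 + 4 * (I.card : ℝ) ^ 2 / u) * W) = (4 * (u : ℝ) ^ 2 + 4 * (I.card : ℝ) ^ 2 * u) * W := by
      field_simp
    have h7 : 2 * (u : ℝ) * (u * S) ≤ 2 * u * ∑ t ∈ range (u + X), κ (t - u) * TT I b w u t :=
      mul_le_mul_of_nonneg_left h3 (by positivity)
    rw [mul_add, mul_add, h6]
    nlinarith
  exact le_of_mul_le_mul_left h5 (by positivity)

end Pool.Agent.B3
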