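import Mathlib

/-!
# liminf A(n) / n^(1/3) for infinite B_3-sets: sums and the integral
-/

set_option autoImplicit false

open Finset MeasureTheory intervalIntegral

namespace Pool.Agent.B3

noncomputable def phi (v : ℝ) : ℝ := 1 / √(1 - v ^ 2 + v ^ 4)

/-- the integral `J = 1.078..` -/
noncomputable def J : ℝ := ∫ v in (0 : ℝ)..1, 1 / √(1 - v ^ 2 + v ^ 4)

theorem q_pos (v : ℝ) : 3 / 4 ≤ 1 - v ^ 2 + v ^ 4 := by
  nlinarith [sq_nonneg (v ^ 2 - 1 / 2)]

theorem phi_cont : Continuous phi := by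
  unfold phi
  refine continuous_const.div (Real.continuous_sqrt.comp (by fun_prop)) fun v => ?_
  have := q_pos v
  exact (Real.sqrt_pos.2 (by linarith)).ne'

theorem phi_nonneg (v : ℝ) : 0 ≤ phi v := by
  unfold phi
  positivity

theorem phi_le (v : ℝ) : phi v ≤ 6 / 5 := by
  unfold phi
  have h1 := q_pos v
  have h2 : 5 / 6 ≤ √(1 - v ^ 2 + v ^ 4) := by
    refine Real.le_sqrt_of_sq_le ?_
    linarith
  rw [div_le_iff₀ (by linarith)]
  linarith

/-- the kernel -/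
noncomputable def G (i j : ℝ) : ℝ := 1 / √(i * j * (i ^ 2 - i * j + j ^ 2))

theorem q2_pos {i j : ℝ} (hi : 0 < i) (hj : 0 < j) : 0 < i * j * (i ^ 2 - i * j + j ^ 2) := by
  have h1 : 0 < i ^ 2 - i * j + j ^ 2 := by nlinarith [sq_nonneg (i - j), mul_pos hi hj]
  positivity

theorem h_mono {s t : ℝ} (hst : s ≤ t) : s - s ^ 2 + s ^ 3 ≤ t - t ^ 2 + t ^ 3 := by
  have h1 : 0 ≤ 1 - (t + s) + (t ^ 2 + t * s + s ^ 2) := by
    nlinarith [sq_nonneg (t - s), sq_nonneg (3 * (t + s) - 2)]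
  have h2 := mul_nonneg (sub_nonneg.2 hst) h1
  nlinarith

theorem G_step (i j : ℕ) (hi : 1 ≤ i) (hij : i < j) :
    2 / (j : ℝ) * ∫ v in √((i : ℝ) / j)..√(((i + 1 : ℕ) : ℝ) / j), phi v ≤ G i j := by
  have hi0 : (0 : ℝ) < i := by exact_mod_cast hi
  have hj0 : (0 : ℝ) < j := by exact_mod_cast (by omega : 0 < j)
  have hle : √((i : ℝ) / j) ≤ √(((i + 1 : ℕ) : ℝ) / j) := by
    refine Real.sqrt_le_sqrt (div_le_div_of_nonneg_right ?_ hj0.le)
    push_cast
    linarith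
  have hq := q2_pos hi0 hj0
  have hG : 0 < G i j := by
    unfold G
    positivity
  have h1 : ∫ v in √((i : ℝ) / j)..√(((i + 1 : ℕ) : ℝ) / j), phi v ≤
      ∫ v in √((i : ℝ) / j)..√(((i + 1 : ℕ) : ℝ) / j), G i j * j ^ 2 * v := by
    refine intervalIntegral.integral_mono_on hle (phi_cont.intervalIntegrable _ _)
      ((continuous_const.mul continuous_id).intervalIntegrable _ _) fun v hv => ?_
    have hv0 : 0 < v := lt_of_lt_of_le (Real.sqrt_pos.2 (by positivity)) hv.1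
    have hv2 : (i : ℝ) / j ≤ v ^ 2 := by
      have := pow_le_pow_left₀ (Real.sqrt_nonneg _) hv.1 2
      rwa [Real.sq_sqrt (by positivity)] at this
    have h2 := h_mono hv2
    have h3 : (i : ℝ) * j * (i ^ 2 - i * j + j ^ 2) ≤ (j ^ 2 * v) ^ 2 * (1 - v ^ 2 + v ^ 4) := by
      have e1 : (i : ℝ) * j * (i ^ 2 - i * j + j ^ 2) = j ^ 4 * ((i : ℝ) / j - ((i : ℝ) / j) ^ 2 + ((i : ℝ) / j) ^ 3) := by
        field_simp
        ring
      have e2 : (j ^ 2 * v) ^ 2 * (1 - v ^ 2 + v ^ 4) = (j : ℝ) ^ 4 * (v ^ 2 - (v ^ 2) ^ 2 + (v ^ 2) ^ 3) := by ring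
      rw [e1, e2]
      exact mul_le_mul_of_nonneg_left h2 (by positivity)
    have h4 := Real.sqrt_le_sqrt h3
    have e4 : √(((j : ℝ) ^ 2 * v) ^ 2 * (1 - v ^ 2 + v ^ 4)) = j ^ 2 * v * √(1 - v ^ 2 + v ^ 4) := by
      rw [Real.sqrt_mul (by positivity), Real.sqrt_sq (by positivity)]
    rw [e4] at h4
    have hs : 0 < √(1 - v ^ 2 + v ^ 4) := Real.sqrt_pos.2 (by have := q_pos v; linarith)
    have hs2 : 0 < √((i : ℝ) * j * (i ^ 2 - i * j + j ^ 2)) := Real.sqrt_pos.2 hq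
    unfold phi G
    rw [div_le_iff₀ hs]
    have e3 : 1 / √((i : ℝ) * j * (i ^ 2 - i * j + j ^ 2)) * j ^ 2 * v * √(1 - v ^ 2 + v ^ 4) =
        (j ^ 2 * v * √(1 - v ^ 2 + v ^ 4)) / √((i : ℝ) * j * (i ^ 2 - i * j + j ^ 2)) := by ring
    rw [e3, le_div_iff₀ hs2, one_mul]
    exact h4
  have h5 : ∫ v in √((i : ℝ) / j)..√(((i + 1 : ℕ) : ℝ) / j), G i j * j ^ 2 * v = G i j * j / 2 := by
    rw [intervalIntegral.integral_const_mul, integral_id, Real.sq_sqrt (by positivity), Real.sq_sqrt (by positivity)]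
    push_cast
    field_simp
    ring
  rw [h5] at h1
  calc 2 / (j : ℝ) * ∫ v in √((i : ℝ) / j)..√(((i + 1 : ℕ) : ℝ) / j), phi v ≤ 2 / (j : ℝ) * (G i j * j / 2) :=
        mul_le_mul_of_nonneg_left h1 (by positivity)
    _ = G i j := by field_simp

theorem G_row (m j : ℕ) (hm : 1 ≤ m) (hmj : m ≤ j) :
    2 / (j : ℝ) * (J - 6 / 5 * √((m : ℝ) / j)) ≤ ∑ i ∈ Ico m j, G i j := by
  have hj0 : (0 : ℝ) < j := by exact_mod_cast (by omega : 0 < j)
  have h1 : ∑ i ∈ Ico m j, 2 / (j : ℝ) * ∫ v in √((i : ℝ) / j)..√(((i + 1 : ℕ) : ℝ) / j), phi v ≤ ∑ i ∈ Ico m j, G i j := by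
    refine Finset.sum_le_sum fun i hi => ?_
    rw [Finset.mem_Ico] at hi
    exact G_step i j (hm.trans hi.1) hi.2
  rw [← Finset.mul_sum, intervalIntegral.sum_integral_adjacent_intervals_Ico (a := fun i : ℕ => √((i : ℝ) / j)) hmj
    (fun k _ => phi_cont.intervalIntegrable _ _)] at h1
  have h2 : √((j : ℝ) / j) = 1 := by rw [div_self hj0.ne', Real.sqrt_one]
  rw [h2] at h1
  refine le_trans (mul_le_mul_of_nonneg_left ?_ (by positivity)) h1
  have h3 : ∫ v in (0 : ℝ)..√((m : ℝ) / j), phi v ≤ 6 / 5 * √((m : ℝ) / j) := by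
    have h4 : ∫ v in (0 : ℝ)..√((m : ℝ) / j), phi v ≤ ∫ v in (0 : ℝ)..√((m : ℝ) / j), (6 / 5 : ℝ) :=
      intervalIntegral.integral_mono_on (Real.sqrt_nonneg _) (phi_cont.intervalIntegrable _ _)
        (continuous_const.intervalIntegrable _ _) fun v _ => phi_le v
    rw [intervalIntegral.integral_const, sub_zero, smul_eq_mul] at h4
    linarith
  have h5 : (∫ v in (0 : ℝ)..√((m : ℝ) / j), phi v) + ∫ v in √((m : ℝ) / j)..1, phi v = J :=
    intervalIntegral.integral_add_adjacent_intervals (phi_cont.intervalIntegrable _ _) (phi_cont.intervalIntegrable _ _)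
  linarith

/-! ## Harmonic sums -/

theorem harm_lower (m n : ℕ) (hm : 1 ≤ m) (hmn : m ≤ n) : Real.log (n / m) ≤ ∑ j ∈ Ico m n, 1 / (j : ℝ) := by
  have hm0 : (0 : ℝ) < m := by exact_mod_cast hm
  induction n, hmn using Nat.le_induction with
  | base => rw [div_self hm0.ne', Real.log_one, Finset.Ico_self, Finset.sum_empty]
  | succ n hn ih =>
    have hn0 : (0 : ℝ) < n := by exact_mod_cast (by omega : 0 < n)
    rw [Finset.sum_Ico_succ_top hn]
    have h1 : Real.log (((n + 1 : ℕ) : ℝ) / m) = Real.log (n / m) + Real.log (1 + 1 / n) := by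
      rw [← Real.log_mul (by positivity) (by positivity)]
      congr 1
      push_cast
      field_simp
    have h2 : Real.log (1 + 1 / (n : ℝ)) ≤ 1 / n := by
      have := Real.log_le_sub_one_of_pos (x := 1 + 1 / (n : ℝ)) (by positivity)
      linarith
    rw [h1]
    linarith

theorem harm_upper' (m n : ℕ) (hm : 1 ≤ m) (hmn : m ≤ n) :
    ∑ j ∈ Ico m (n + 1), 1 / (j : ℝ) ≤ 1 / m + Real.log (n / m) := by
  have hm0 : (0 : ℝ) < m := by exact_mod_cast hm
  induction n, hmn using Nat.le_induction with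
  | base => rw [Finset.sum_Ico_succ_top le_rfl, Finset.Ico_self, Finset.sum_empty, div_self hm0.ne', Real.log_one]; linarith
  | succ n hn ih =>
    have hn0 : (0 : ℝ) < n := by exact_mod_cast (by omega : 0 < n)
    rw [Finset.sum_Ico_succ_top (by omega)]
    have h1 : Real.log (((n + 1 : ℕ) : ℝ) / m) = Real.log (n / m) + Real.log (((n + 1 : ℕ) : ℝ) / n) := by
      rw [← Real.log_mul (by positivity) (by positivity)]
      congr 1
      field_simp
    have h2 : 1 / ((n + 1 : ℕ) : ℝ) ≤ Real.log (((n + 1 : ℕ) : ℝ) / n) := by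
      have := Real.one_sub_inv_le_log_of_pos (x := ((n + 1 : ℕ) : ℝ) / n) (by positivity)
      refine le_trans (le_of_eq ?_) this
      push_cast
      field_simp
      ring
    rw [h1]
    linarith

theorem harm_upper (m n : ℕ) (hm : 1 ≤ m) (hmn : m ≤ n) : ∑ j ∈ Ico m n, 1 / (j : ℝ) ≤ 1 + Real.log (n / m) := by
  have hm0 : (1 : ℝ) ≤ m := by exact_mod_cast hm
  have hn0 : (0 : ℝ) < n := by exact_mod_cast (by omega : 0 < n)
  have h1 := harm_upper' m n hm hmn
  rw [Finset.sum_Ico_succ_top hmn] at h1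
  have h2 : 1 / (m : ℝ) ≤ 1 := by
    rw [div_le_one (by linarith)]
    exact hm0
  have h3 : 0 ≤ 1 / (n : ℝ) := by positivity
  linarith

theorem sq_sum (m n : ℕ) (hm : 1 ≤ m) (hmn : m ≤ n) :
    ∑ j ∈ Ico m (n + 1), 1 / ((j : ℝ) * √j) ≤ 3 / √m - 2 / √n := by
  have hm0 : (1 : ℝ) ≤ m := by exact_mod_cast hm
  have hms : 0 < √(m : ℝ) := Real.sqrt_pos.2 (by linarith)
  induction n, hmn using Nat.le_induction with
  | base =>
    rw [Finset.sum_Ico_succ_top le_rfl, Finset.Ico_self, Finset.sum_empty, zero_add]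
    have h1 : 3 / √(m : ℝ) - 2 / √(m : ℝ) = 1 / √(m : ℝ) := by ring
    rw [h1]
    refine one_div_le_one_div_of_le hms ?_
    nlinarith
  | succ n hn ih =>
    have hn0 : (0 : ℝ) < n := by exact_mod_cast (by omega : 0 < n)
    rw [Finset.sum_Ico_succ_top (by omega)]
    have h2 : 1 / (((n + 1 : ℕ) : ℝ) * √((n + 1 : ℕ) : ℝ)) ≤ 2 / √(n : ℝ) - 2 / √((n + 1 : ℕ) : ℝ) := by
      set x := √(n : ℝ) with hx
      set y := √((n + 1 : ℕ) : ℝ) with hy
      have hx0 : 0 < x := Real.sqrt_pos.2 hn0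
      have hy0 : 0 < y := Real.sqrt_pos.2 (by positivity)
      have hx2 : x ^ 2 = n := Real.sq_sqrt hn0.le
      have hy2 : y ^ 2 = n + 1 := by
        rw [hy, Real.sq_sqrt (by positivity)]
        push_cast
        ring
      have hxy : x ≤ y := Real.sqrt_le_sqrt (by push_cast; linarith)
      have e1 : ((n + 1 : ℕ) : ℝ) = y ^ 2 := by
        rw [hy2]
        push_cast
        ring
      rw [e1]
      have e2 : 2 / x - 2 / y = 2 / (x * y * (y + x)) := by
        have h3 : (y - x) * (y + x) = 1 := by nlinarith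
        rw [div_sub_div _ _ hx0.ne' hy0.ne', div_eq_div_iff (by positivity) (by positivity)]
        calc (2 * y - x * 2) * (x * y * (y + x)) = 2 * ((y - x) * (y + x)) * (x * y) := by ring
          _ = 2 * (x * y) := by rw [h3, mul_one]
      rw [e2, div_le_div_iff₀ (by positivity) (by positivity)]
      have h4 : x * y * (y + x) ≤ y * y * (y + y) := by
        refine mul_le_mul (mul_le_mul_of_nonneg_right hxy hy0.le) (by linarith) (by positivity) (by positivity)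
      nlinarith
    linarith

theorem sq_sum' (m n : ℕ) (hm : 1 ≤ m) (hmn : m ≤ n) :
    ∑ j ∈ Ico m n, 1 / (j : ℝ) * √((m : ℝ) / j) ≤ 3 := by
  have hm0 : (1 : ℝ) ≤ m := by exact_mod_cast hm
  have hms : 0 < √(m : ℝ) := Real.sqrt_pos.2 (by linarith)
  have h1 := sq_sum m n hm hmn
  rw [Finset.sum_Ico_succ_top hmn] at h1
  have h2 : 0 ≤ 1 / ((n : ℝ) * √n) := by positivity
  have h3 : 0 ≤ 2 / √(n : ℝ) := by positivity
  have h4 : ∑ j ∈ Ico m n, 1 / ((j : ℝ) * √j) ≤ 3 / √m := by linarith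
  have h5 : ∑ j ∈ Ico m n, 1 / (j : ℝ) * √((m : ℝ) / j) = √m * ∑ j ∈ Ico m n, 1 / ((j : ℝ) * √j) := by
    rw [Finset.mul_sum]
    refine Finset.sum_congr rfl fun j hj => ?_
    rw [Real.sqrt_div (by linarith)]
    ring
  rw [h5]
  calc √(m : ℝ) * ∑ j ∈ Ico m n, 1 / ((j : ℝ) * √j) ≤ √m * (3 / √m) := mul_le_mul_of_nonneg_left h4 hms.le
    _ = 3 := by field_simp

/-- the double sum -/
theorem G_sum (m n : ℕ) (hm : 1 ≤ m) (hmn : m ≤ n) :
    4 * J * Real.log (n / m) - 15 ≤ ∑ p ∈ Ico m n ×ˢ Ico m n, G p.1 p.2 := by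
  have hGs : ∀ x y : ℝ, G x y = G y x := by
    intro x y
    unfold G
    congr 2
    ring
  have hG0 : ∀ x y : ℝ, 0 ≤ G x y := by
    intro x y
    unfold G
    positivity
  have h1 : ∑ j ∈ Ico m n, ∑ i ∈ Ico m j, G i j + ∑ j ∈ Ico m n, ∑ i ∈ Ico m j, G j i ≤
      ∑ p ∈ Ico m n ×ˢ Ico m n, G p.1 p.2 := by
    have e1 : ∑ j ∈ Ico m n, ∑ i ∈ Ico m j, G j i = ∑ p ∈ (Ico m n ×ˢ Ico m n) with p.2 < p.1, G p.1 p.2 := by
      rw [Finset.sum_filter, Finset.sum_product]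
      refine Finset.sum_congr rfl fun j hj => ?_
      rw [← Finset.sum_filter]
      refine Finset.sum_congr ?_ fun _ _ => rfl
      ext i
      rw [Finset.mem_Ico] at hj
      simp only [Finset.mem_Ico, Finset.mem_filter]
      omega
    have e2 : ∑ j ∈ Ico m n, ∑ i ∈ Ico m j, G i j = ∑ p ∈ (Ico m n ×ˢ Ico m n) with p.1 < p.2, G p.1 p.2 := by
      rw [Finset.sum_filter, Finset.sum_product_right]
      refine Finset.sum_congr rfl fun j hj => ?_
      rw [← Finset.sum_filter]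
      refine Finset.sum_congr ?_ fun _ _ => rfl
      ext i
      rw [Finset.mem_Ico] at hj
      simp only [Finset.mem_Ico, Finset.mem_filter]
      omega
    rw [e1, e2, ← Finset.sum_union]
    · refine Finset.sum_le_sum_of_subset_of_nonneg ?_ fun p _ _ => hG0 _ _
      intro p hp
      rw [Finset.mem_union, Finset.mem_filter, Finset.mem_filter] at hp
      rcases hp with hp | hp <;> exact hp.1
    · rw [Finset.disjoint_left]
      intro p hp hp'
      rw [Finset.mem_filter] at hp hp'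
      omega
  have h2 : ∑ j ∈ Ico m n, ∑ i ∈ Ico m j, G j i = ∑ j ∈ Ico m n, ∑ i ∈ Ico m j, G i j :=
    Finset.sum_congr rfl fun j _ => Finset.sum_congr rfl fun i _ => hGs _ _
  rw [h2] at h1
  have h3 : ∑ j ∈ Ico m n, 2 / (j : ℝ) * (J - 6 / 5 * √((m : ℝ) / j)) ≤ ∑ j ∈ Ico m n, ∑ i ∈ Ico m j, G i j := by
    refine Finset.sum_le_sum fun j hj => ?_
    rw [Finset.mem_Ico] at hj
    exact G_row m j hm hj.1
  have h4 : ∑ j ∈ Ico m n, 2 / (j : ℝ) * (J - 6 / 5 * √((m : ℝ) / j)) =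
      2 * J * ∑ j ∈ Ico m n, 1 / (j : ℝ) - 12 / 5 * ∑ j ∈ Ico m n, 1 / (j : ℝ) * √((m : ℝ) / j) := by
    rw [Finset.mul_sum, Finset.mul_sum, ← Finset.sum_sub_distrib]
    refine Finset.sum_congr rfl fun j _ => ?_
    ring
  have h5 := harm_lower m n hm hmn
  have h6 := sq_sum' m n hm hmn
  have hJ : 0 ≤ J := by
    unfold J
    exact intervalIntegral.integral_nonneg zero_le_one fun v _ => phi_nonneg v
  have h7 : 2 * J * Real.log (n / m) ≤ 2 * J * ∑ j ∈ Ico m n, 1 / (j : ℝ) := mul_le_mul_of_nonneg_left h5 (by linarith)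
  linarith

end Pool.Agent.B3
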