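import Pool.Agent.helper74.B3.Core2
import Pool.Agent.helper74.B3.Sums

/-!
# liminf A(n) / n^(1/3) for infinite B_3-sets: the bound for the density
-/

set_option autoImplicit false

open Finset

namespace Pool.Agent.B3

/-- the test function -/
noncomputable def kap (c : ℝ) (x0 s : ℕ) : ℝ := c / √(max (s : ℝ) x0)

theorem kap_anti {c : ℝ} (hc : 0 ≤ c) {x0 : ℕ} (hx : 1 ≤ x0) : Antitone (kap c x0) := by
  intro s t hst
  unfold kap
  have h0 : (0 : ℝ) < x0 := by exact_mod_cast hx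
  refine div_le_div_of_nonneg_left hc (Real.sqrt_pos.2 (lt_of_lt_of_le h0 (le_max_right _ _))) (Real.sqrt_le_sqrt ?_)
  exact max_le_max (by exact_mod_cast hst) le_rfl

theorem kap_sq (c : ℝ) {x0 : ℕ} (hx : 1 ≤ x0) (s : ℕ) : kap c x0 s ^ 2 = c ^ 2 * (1 / max (s : ℝ) x0) := by
  unfold kap
  have h0 : (0 : ℝ) < x0 := by exact_mod_cast hx
  rw [div_pow, Real.sq_sqrt (le_trans h0.le (le_max_right _ _))]
  ring

theorem kap_sum (c : ℝ) {x0 X : ℕ} (hx : 1 ≤ x0) (hX : x0 ≤ X) :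
    ∑ s ∈ range X, kap c x0 s ^ 2 ≤ c ^ 2 * (2 + Real.log ((X : ℝ) / x0)) := by
  have h0 : (0 : ℝ) < x0 := by exact_mod_cast hx
  rw [Finset.sum_congr rfl fun s _ => kap_sq c hx s, ← Finset.mul_sum]
  refine mul_le_mul_of_nonneg_left ?_ (sq_nonneg c)
  rw [Finset.range_eq_Ico, ← Finset.sum_Ico_consecutive _ (Nat.zero_le x0) hX]
  have h1 : ∑ s ∈ Ico 0 x0, 1 / max (s : ℝ) x0 = 1 := by
    rw [Finset.sum_congr rfl (fun s hs => by
      rw [Finset.mem_Ico] at hs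
      rw [max_eq_right (by exact_mod_cast hs.2.le)] : ∀ s ∈ Ico 0 x0, 1 / max (s : ℝ) x0 = 1 / (x0 : ℝ))]
    rw [Finset.sum_const, Nat.card_Ico, nsmul_eq_mul, Nat.sub_zero]
    field_simp
  have h2 : ∑ s ∈ Ico x0 X, 1 / max (s : ℝ) x0 = ∑ s ∈ Ico x0 X, 1 / (s : ℝ) := by
    refine Finset.sum_congr rfl fun s hs => ?_
    rw [Finset.mem_Ico] at hs
    rw [max_eq_left (by exact_mod_cast hs.1)]
  have h3 := harm_upper x0 X hx hX
  rw [h1, h2]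
  linarith

/-- the kernel comes from the weights and the test function -/
theorem kap_G {α c : ℝ} (hα : 0 < α) (hc : 0 ≤ c) {x0 s i j : ℕ} (hx : 1 ≤ x0) (hi : 1 ≤ i) (hj : 1 ≤ j)
    (hx0 : (x0 : ℝ) ≤ (i : ℝ) ^ 3 / α ^ 3) (hs : (s : ℝ) ≤ (i : ℝ) ^ 3 / α ^ 3 + (j : ℝ) ^ 3 / α ^ 3) :
    c * √(α ^ 3) * G i j ≤ √(1 / (i : ℝ) + 1 / (j : ℝ)) * kap c x0 s := by
  have hi0 : (0 : ℝ) < i := by exact_mod_cast hi
  have hj0 : (0 : ℝ) < j := by exact_mod_cast hj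
  have h0 : (0 : ℝ) < x0 := by exact_mod_cast hx
  have hq := q2_pos hi0 hj0
  have h1 : max (s : ℝ) x0 ≤ (i : ℝ) ^ 3 / α ^ 3 + (j : ℝ) ^ 3 / α ^ 3 := by
    refine max_le hs (hx0.trans ?_)
    have : 0 ≤ (j : ℝ) ^ 3 / α ^ 3 := by positivity
    linarith
  have h2 : c / √((i : ℝ) ^ 3 / α ^ 3 + (j : ℝ) ^ 3 / α ^ 3) ≤ kap c x0 s := by
    unfold kap
    exact div_le_div_of_nonneg_left hc (Real.sqrt_pos.2 (lt_of_lt_of_le h0 (le_max_right _ _))) (Real.sqrt_le_sqrt h1)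
  refine le_trans (le_of_eq ?_) (mul_le_mul_of_nonneg_left h2 (Real.sqrt_nonneg _))
  have h3 : √(α ^ 3) * G i j = √(1 / (i : ℝ) + 1 / (j : ℝ)) / √((i : ℝ) ^ 3 / α ^ 3 + (j : ℝ) ^ 3 / α ^ 3) := by
    unfold G
    rw [← Real.sqrt_div (by positivity), mul_one_div, ← Real.sqrt_div (by positivity)]
    congr 1
    have e1 : (i : ℝ) ^ 3 / α ^ 3 + (j : ℝ) ^ 3 / α ^ 3 = ((i : ℝ) + j) * (i ^ 2 - i * j + j ^ 2) / α ^ 3 := by
      field_simp
      ring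
    have h4 : 0 < (i : ℝ) ^ 2 - i * j + j ^ 2 := by nlinarith [sq_nonneg ((i : ℝ) - j), mul_pos hi0 hj0]
    rw [e1]
    field_simp
    ring
  rw [mul_assoc, h3]
  ring

theorem log4 : Real.log 4 ≤ 2 := by
  have h1 : Real.log 4 = 2 * Real.log 2 := by
    rw [show (4 : ℝ) = 2 ^ 2 by norm_num, Real.log_pow]
    norm_num
  have h2 := Real.log_two_lt_d9
  linarith

/-- the inequality for a window of scales -/
theorem scales (b : ℕ → ℕ) (α : ℝ) (hα : 0 < α) (i0 : ℕ) (hb : ∀ i, i0 ≤ i → (b i : ℝ) ≤ (i : ℝ) ^ 3 / α ^ 3)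
    (hB : ∀ m n, 1 ≤ m → B3 (Ico m n) b) (c : ℝ) (hc : 0 ≤ c) (K : ℕ) (hK : 2 ≤ K) :
    2 * (c * √(α ^ 3) * (4 * J * Real.log K - 15)) ≤ c ^ 2 * (5 + 3 * Real.log K) + 8 + 4 * Real.log K := by
  have hK0 : (2 : ℝ) ≤ K := by exact_mod_cast hK
  have hK1 : (0 : ℝ) < K := by linarith
  have hα3 : 0 < α ^ 3 := by positivity
  obtain ⟨m, hm⟩ := exists_nat_ge (2 * α ^ 3 * (K : ℝ) ^ 3 + i0 + 1)
  have hp1 : 0 ≤ 2 * α ^ 3 * (K : ℝ) ^ 3 := by positivity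
  have hp2 : (0 : ℝ) ≤ i0 := Nat.cast_nonneg _
  have hm1 : 1 ≤ m := by
    have : (1 : ℝ) ≤ m := by linarith
    exact_mod_cast this
  have hmi : i0 ≤ m := by
    have : (i0 : ℝ) ≤ m := by linarith
    exact_mod_cast this
  have hm0 : (1 : ℝ) ≤ m := by exact_mod_cast hm1
  have hm2 : 2 * α ^ 3 * (K : ℝ) ^ 3 ≤ m := by linarith
  have hK3 : (1 : ℝ) ≤ (K : ℝ) ^ 3 := one_le_pow₀ (by linarith)
  have hm3 : 2 * α ^ 3 ≤ (m : ℝ) ^ 3 := by
    have e1 : 2 * α ^ 3 * 1 ≤ 2 * α ^ 3 * (K : ℝ) ^ 3 := mul_le_mul_of_nonneg_left hK3 (by positivity)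
    have e2 : (m : ℝ) ≤ (m : ℝ) ^ 3 := le_self_pow₀ hm0 (by norm_num)
    linarith
  -- the parameters
  set x0 : ℕ := ⌊(m : ℝ) ^ 3 / α ^ 3⌋₊ with hx0
  set X : ℕ := ⌊2 * ((K : ℝ) * m) ^ 3 / α ^ 3⌋₊ with hXd
  set u : ℕ := K ^ 3 * m ^ 2 with hu
  have hx1 : (m : ℝ) ^ 3 / (2 * α ^ 3) ≤ x0 := by
    have e1 := Nat.lt_floor_add_one ((m : ℝ) ^ 3 / α ^ 3)
    rw [← hx0] at e1
    have e2 : (m : ℝ) ^ 3 / α ^ 3 = 2 * ((m : ℝ) ^ 3 / (2 * α ^ 3)) := by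
      field_simp
    have e3 : 1 ≤ (m : ℝ) ^ 3 / (2 * α ^ 3) := by
      rw [le_div_iff₀ (by positivity)]
      linarith
    linarith
  have hx2 : (x0 : ℝ) ≤ (m : ℝ) ^ 3 / α ^ 3 := Nat.floor_le (by positivity)
  have hx3 : 1 ≤ x0 := by
    have e3 : 1 ≤ (m : ℝ) ^ 3 / (2 * α ^ 3) := by
      rw [le_div_iff₀ (by positivity)]
      linarith
    have : (1 : ℝ) ≤ x0 := by linarith
    exact_mod_cast this
  have hxp : (0 : ℝ) < x0 := by exact_mod_cast hx3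
  have hX1 : (X : ℝ) ≤ 2 * ((K : ℝ) * m) ^ 3 / α ^ 3 := Nat.floor_le (by positivity)
  have hxX : x0 ≤ X := by
    refine Nat.floor_le_floor ?_
    refine div_le_div_of_nonneg_right ?_ hα3.le
    rw [mul_pow]
    have : 0 ≤ (m : ℝ) ^ 3 := by positivity
    nlinarith
  have hu1 : 1 ≤ u := Nat.one_le_iff_ne_zero.2 (by positivity)
  have hu0 : (u : ℝ) = (K : ℝ) ^ 3 * (m : ℝ) ^ 2 := by
    rw [hu]
    push_cast
    ring
  have hmK : m ≤ K * m := Nat.le_mul_of_pos_left m (by omega)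
  -- the main inequality
  have h1 := main_ineq (Ico m (K * m)) b (hB m (K * m) hm1) (fun i => 1 / (i : ℝ)) (fun i => by positivity) u hu1
    (kap c x0) (kap_anti hc hx3) X (by
      intro i hi j hj
      rw [Finset.mem_Ico] at hi hj
      refine Nat.le_floor ?_
      push_cast
      have e1 := hb i (hmi.trans hi.1)
      have e2 := hb j (hmi.trans hj.1)
      have e3 : (i : ℝ) ^ 3 / α ^ 3 ≤ ((K : ℝ) * m) ^ 3 / α ^ 3 := by
        refine div_le_div_of_nonneg_right (pow_le_pow_left₀ (Nat.cast_nonneg _) ?_ 3) hα3.le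
        exact_mod_cast hi.2.le
      have e4 : (j : ℝ) ^ 3 / α ^ 3 ≤ ((K : ℝ) * m) ^ 3 / α ^ 3 := by
        refine div_le_div_of_nonneg_right (pow_le_pow_left₀ (Nat.cast_nonneg _) ?_ 3) hα3.le
        exact_mod_cast hj.2.le
      have e5 : 2 * ((K : ℝ) * m) ^ 3 / α ^ 3 = ((K : ℝ) * m) ^ 3 / α ^ 3 + ((K : ℝ) * m) ^ 3 / α ^ 3 := by ring
      rw [e5]
      linarith)
  -- lower bound
  have h2 : c * √(α ^ 3) * (4 * J * Real.log K - 15) ≤
      ∑ p ∈ Ico m (K * m) ×ˢ Ico m (K * m), √(1 / (p.1 : ℝ) + 1 / (p.2 : ℝ)) * kap c x0 (b p.1 + b p.2) := by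
    have e1 := G_sum m (K * m) hm1 hmK
    have e2 : ((K * m : ℕ) : ℝ) / m = K := by
      push_cast
      field_simp
    rw [e2] at e1
    refine le_trans (mul_le_mul_of_nonneg_left e1 (by positivity)) ?_
    rw [Finset.mul_sum]
    refine Finset.sum_le_sum fun p hp => ?_
    rw [Finset.mem_product, Finset.mem_Ico, Finset.mem_Ico] at hp
    obtain ⟨hp1, hp2⟩ := hp
    refine kap_G hα hc hx3 (hm1.trans hp1.1) (hm1.trans hp2.1) (hx2.trans ?_) ?_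
    · refine div_le_div_of_nonneg_right (pow_le_pow_left₀ (Nat.cast_nonneg _) ?_ 3) hα3.le
      exact_mod_cast hp1.1
    · push_cast
      have e3 := hb p.1 (hmi.trans hp1.1)
      have e4 := hb p.2 (hmi.trans hp2.1)
      linarith
  -- upper bounds
  have hlog : 0 ≤ Real.log K := Real.log_nonneg (by linarith)
  have h3 : (u : ℝ) * kap c x0 0 ^ 2 ≤ c ^ 2 := by
    rw [kap_sq c hx3, Nat.cast_zero, max_eq_right hxp.le, hu0]
    have e1 : (K : ℝ) ^ 3 * (m : ℝ) ^ 2 * (1 / (x0 : ℝ)) ≤ 1 := by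
      rw [mul_one_div, div_le_one hxp]
      refine le_trans ?_ hx1
      rw [le_div_iff₀ (by positivity)]
      have e2 : (m : ℝ) ^ 3 = m * (m : ℝ) ^ 2 := by ring
      rw [e2]
      have e3 : 0 ≤ (m : ℝ) ^ 2 := by positivity
      nlinarith
    calc (K : ℝ) ^ 3 * (m : ℝ) ^ 2 * (c ^ 2 * (1 / (x0 : ℝ))) = c ^ 2 * ((K : ℝ) ^ 3 * (m : ℝ) ^ 2 * (1 / (x0 : ℝ))) := by ring
      _ ≤ c ^ 2 * 1 := mul_le_mul_of_nonneg_left e1 (sq_nonneg c)
      _ = c ^ 2 := mul_one _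
  have h4 : ∑ s ∈ range X, kap c x0 s ^ 2 ≤ c ^ 2 * (4 + 3 * Real.log K) := by
    refine (kap_sum c hx3 hxX).trans (mul_le_mul_of_nonneg_left ?_ (sq_nonneg c))
    have e1 : (X : ℝ) / x0 ≤ 4 * (K : ℝ) ^ 3 := by
      rw [div_le_iff₀ hxp]
      have e2 : 2 * ((K : ℝ) * m) ^ 3 / α ^ 3 = 4 * (K : ℝ) ^ 3 * ((m : ℝ) ^ 3 / (2 * α ^ 3)) := by
        field_simp
        ring
      refine hX1.trans ?_
      rw [e2]
      exact mul_le_mul_of_nonneg_left hx1 (by positivity)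
    have hXp : (0 : ℝ) < X := lt_of_lt_of_le hxp (by exact_mod_cast hxX)
    have e3 := Real.log_le_log (div_pos hXp hxp) e1
    rw [Real.log_mul (by norm_num) (by positivity), Real.log_pow] at e3
    push_cast at e3
    have := log4
    linarith
  have h5 : ∑ k ∈ Ico m (K * m), 1 / (k : ℝ) ≤ 1 + Real.log K := by
    have e1 := harm_upper m (K * m) hm1 hmK
    have e2 : ((K * m : ℕ) : ℝ) / m = K := by
      push_cast
      field_simp
    rwa [e2] at e1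
  have h6 : 4 * (((Ico m (K * m)).card : ℕ) : ℝ) ^ 2 / u ≤ 4 / K := by
    have e1 : (((Ico m (K * m)).card : ℕ) : ℝ) ≤ K * m := by
      rw [Nat.card_Ico]
      have : K * m - m ≤ K * m := Nat.sub_le _ _
      exact_mod_cast this
    have e2 : (((Ico m (K * m)).card : ℕ) : ℝ) ^ 2 ≤ ((K : ℝ) * m) ^ 2 := pow_le_pow_left₀ (Nat.cast_nonneg _) e1 2
    rw [hu0, div_le_div_iff₀ (by positivity) hK1]
    calc 4 * (((Ico m (K * m)).card : ℕ) : ℝ) ^ 2 * K ≤ 4 * ((K : ℝ) * m) ^ 2 * K := by nlinarith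
      _ = 4 * ((K : ℝ) ^ 3 * (m : ℝ) ^ 2) := by ring
  have h7 : (4 + 4 * (((Ico m (K * m)).card : ℕ) : ℝ) ^ 2 / u) * ∑ k ∈ Ico m (K * m), 1 / (k : ℝ) ≤ 8 + 4 * Real.log K := by
    have e1 : 0 ≤ ∑ k ∈ Ico m (K * m), 1 / (k : ℝ) := Finset.sum_nonneg fun _ _ => by positivity
    have e2 : 1 + Real.log K ≤ K := by
      have := Real.log_le_sub_one_of_pos hK1
      linarith
    calc (4 + 4 * (((Ico m (K * m)).card : ℕ) : ℝ) ^ 2 / u) * ∑ k ∈ Ico m (K * m), 1 / (k : ℝ)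
        ≤ (4 + 4 / K) * ∑ k ∈ Ico m (K * m), 1 / (k : ℝ) := mul_le_mul_of_nonneg_right (by linarith) e1
      _ ≤ (4 + 4 / K) * (1 + Real.log K) := mul_le_mul_of_nonneg_left h5 (by positivity)
      _ = 4 + 4 * Real.log K + 4 * ((1 + Real.log K) / K) := by ring
      _ ≤ 4 + 4 * Real.log K + 4 * 1 := by
        have : (1 + Real.log K) / K ≤ 1 := (div_le_one hK1).2 e2
        linarith
      _ = 8 + 4 * Real.log K := by ring
  have h8 : c ^ 2 + c ^ 2 * (4 + 3 * Real.log K) = c ^ 2 * (5 + 3 * Real.log K) := by ring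
  linarith

theorem J_nonneg : 0 ≤ J := by
  unfold J
  exact intervalIntegral.integral_nonneg zero_le_one fun v _ => phi_nonneg v

/-- the bound for the density -/
theorem dens (b : ℕ → ℕ) (α : ℝ) (hα : 0 < α) (i0 : ℕ) (hb : ∀ i, i0 ≤ i → (b i : ℝ) ≤ (i : ℝ) ^ 3 / α ^ 3)
    (hB : ∀ m n, 1 ≤ m → B3 (Ico m n) b) : 4 * J ^ 2 * α ^ 3 ≤ 3 := by
  by_contra hcon
  push Not at hcon
  have hJ := J_nonneg
  set β := √(α ^ 3) with hβ
  have hβ0 : 0 ≤ β := Real.sqrt_nonneg _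
  have hβ2 : β ^ 2 = α ^ 3 := Real.sq_sqrt (by positivity)
  set c := 4 * J * β / 3 with hc
  have hc0 : 0 ≤ c := by positivity
  have hd : 0 < 8 * J * β * c - 3 * c ^ 2 - 4 := by
    have e1 : 8 * J * β * c - 3 * c ^ 2 - 4 = 16 * J ^ 2 * β ^ 2 / 3 - 4 := by
      rw [hc]
      ring
    rw [e1, hβ2]
    linarith
  set δ := 8 * J * β * c - 3 * c ^ 2 - 4 with hδ
  obtain ⟨K, hK⟩ := exists_nat_ge (Real.exp ((5 * c ^ 2 + 8 + 30 * (c * β)) / δ + 1) + 2)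
  have hK2 : 2 ≤ K := by
    have := Real.exp_pos ((5 * c ^ 2 + 8 + 30 * (c * β)) / δ + 1)
    have h2 : (2 : ℝ) ≤ K := by linarith
    exact_mod_cast h2
  have h1 := scales b α hα i0 hb hB c hc0 K hK2
  rw [← hβ] at h1
  have h2 : (5 * c ^ 2 + 8 + 30 * (c * β)) / δ + 1 ≤ Real.log K := by
    rw [Real.le_log_iff_exp_le (by have : (2 : ℝ) ≤ K := (by exact_mod_cast hK2); linarith)]
    linarith
  have h3 : (5 * c ^ 2 + 8 + 30 * (c * β)) + δ ≤ δ * Real.log K := by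
    have := mul_le_mul_of_nonneg_left h2 hd.le
    have e1 : δ * ((5 * c ^ 2 + 8 + 30 * (c * β)) / δ + 1) = (5 * c ^ 2 + 8 + 30 * (c * β)) + δ := by
      field_simp
    rwa [e1] at this
  have h4 : δ * Real.log K = 8 * J * β * c * Real.log K - 3 * c ^ 2 * Real.log K - 4 * Real.log K := by
    rw [hδ]
    ring
  rw [h4] at h3
  nlinarith

end Pool.Agent.B3
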