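import Pool.Agent.helper74.B3.Dens

/-!
# liminf A(n) / n^(1/3) for infinite B_3-sets: the enumeration of the set, the numerical value
-/

set_option autoImplicit false

open Finset

namespace Pool.Agent.B3

theorem enum_bound (A : Set ℕ) (hA : A.Infinite)
    (hB : ∀ s t : Multiset ℕ, Multiset.card s = 3 → Multiset.card t = 3 →
      (∀ x ∈ s, x ∈ A) → (∀ x ∈ t, x ∈ A) → s.sum = t.sum → s = t)
    (α : ℝ) (hα : 0 < α) (N : ℕ)
    (h : ∀ n : ℕ, N ≤ n → α * (n : ℝ) ^ ((1 : ℝ) / 3) ≤ ((A ∩ Set.Icc 1 n).ncard : ℝ)) : 4 * J ^ 2 * α ^ 3 ≤ 3 := by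
  classical
  set p : ℕ → Prop := fun n => n ∈ A ∧ 1 ≤ n with hp
  have hinf : {n | p n}.Infinite := by
    have h1 : (A \ {0}).Infinite := hA.sdiff (Set.finite_singleton 0)
    refine h1.mono ?_
    rintro n ⟨hn, hn0⟩
    exact ⟨hn, Nat.one_le_iff_ne_zero.2 hn0⟩
  set a := Nat.nth p with had
  have ha : StrictMono a := Nat.nth_strictMono hinf
  have hmem : ∀ k, p (a k) := Nat.nth_mem_of_infinite hinf
  have hcount : ∀ k, (A ∩ Set.Icc 1 (a k - 1)).ncard = k := by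
    intro k
    have e : A ∩ Set.Icc 1 (a k - 1) = (((range (a k)).filter p : Finset ℕ) : Set ℕ) := by
      ext x
      have h2 := (hmem k).2
      simp only [Set.mem_inter_iff, Set.mem_Icc, Finset.coe_filter, Finset.mem_range, Set.mem_setOf_eq, hp]
      constructor
      · rintro ⟨h1, h3, h4⟩
        exact ⟨by omega, h1, h3⟩
      · rintro ⟨h1, h3, h4⟩
        exact ⟨h3, h4, by omega⟩
    rw [e, Set.ncard_coe_finset, ← Nat.count_eq_card_filter_range, Nat.count_nth_of_infinite hinf]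
  refine dens (fun i => a (i - 1)) α hα (N + 2 + ⌈α ^ 3⌉₊) ?_ ?_
  · intro i hi
    obtain ⟨k, rfl⟩ : ∃ k, i = k + 1 := ⟨i - 1, by omega⟩
    simp only [Nat.add_sub_cancel]
    have h1 : k ≤ a k := ha.le_apply
    have h2 := h (a k - 1) (by omega)
    rw [hcount k] at h2
    have h3 : α ^ 3 ≤ k := by
      have e1 : α ^ 3 ≤ (⌈α ^ 3⌉₊ : ℝ) := Nat.le_ceil _
      have e2 : ((⌈α ^ 3⌉₊ : ℕ) : ℝ) ≤ k := by exact_mod_cast (by omega : ⌈α ^ 3⌉₊ ≤ k)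
      linarith
    have h4 : ((a k - 1 : ℕ) : ℝ) = (a k : ℝ) - 1 := by
      rw [Nat.cast_sub (hmem k).2]
      norm_num
    have h5 : α ^ 3 * ((a k - 1 : ℕ) : ℝ) ≤ (k : ℝ) ^ 3 := by
      have e1 := pow_le_pow_left₀ (by positivity) h2 3
      rw [mul_pow] at e1
      have e2 : ((((a k - 1 : ℕ) : ℝ)) ^ ((1 : ℝ) / 3)) ^ 3 = ((a k - 1 : ℕ) : ℝ) := by
        rw [← Real.rpow_natCast, ← Real.rpow_mul (Nat.cast_nonneg _)]
        norm_num
      rwa [e2] at e1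
    rw [h4] at h5
    rw [le_div_iff₀ (by positivity)]
    push_cast
    have h6 : (0 : ℝ) ≤ k := Nat.cast_nonneg _
    nlinarith
  · intro m n hm i hi j hj k hk i' hi' j' hj' k' hk' hsum
    rw [Finset.mem_Ico] at hi hj hk hi' hj' hk'
    have e : ∀ x y z : ℕ, 1 ≤ x → 1 ≤ y → 1 ≤ z →
        ({x, y, z} : Multiset ℕ) = Multiset.map (fun t => t + 1) {x - 1, y - 1, z - 1} := by
      intro x y z hx hy hz
      simp only [Multiset.insert_eq_cons, Multiset.map_cons, Multiset.map_singleton]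
      rw [Nat.sub_add_cancel hx, Nat.sub_add_cancel hy, Nat.sub_add_cancel hz]
    rw [e i j k (by omega) (by omega) (by omega), e i' j' k' (by omega) (by omega) (by omega)]
    congr 1
    apply Multiset.map_injective ha.injective
    apply hB
    · simp
    · simp
    · intro x hx
      simp only [Multiset.insert_eq_cons, Multiset.map_cons, Multiset.map_singleton, Multiset.mem_cons, Multiset.mem_singleton] at hx
      rcases hx with rfl | rfl | rfl <;> exact (hmem _).1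
    · intro x hx
      simp only [Multiset.insert_eq_cons, Multiset.map_cons, Multiset.map_singleton, Multiset.mem_cons, Multiset.mem_singleton] at hx
      rcases hx with rfl | rfl | rfl <;> exact (hmem _).1
    · simp only [Multiset.insert_eq_cons, Multiset.map_cons, Multiset.map_singleton, Multiset.sum_cons, Multiset.sum_singleton]
      simp only at hsum
      rw [← add_assoc, ← add_assoc]
      exact hsum

theorem phi_lower (v : ℝ) (h0 : 0 ≤ v) (h1 : v ≤ 1) :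
    1 + v ^ 2 / 2 - v ^ 4 / 8 - 7 / 16 * v ^ 6 - 9 / 16 * v ^ 8 + 15 / 16 * v ^ 10 - 5 / 16 * v ^ 12 ≤ phi v := by
  unfold phi
  set x := v ^ 2 - v ^ 4 with hx
  have hx0 : 0 ≤ x := by
    have : v ^ 4 ≤ v ^ 2 := pow_le_pow_of_le_one h0 h1 (by norm_num)
    linarith
  have e1 : 1 + v ^ 2 / 2 - v ^ 4 / 8 - 7 / 16 * v ^ 6 - 9 / 16 * v ^ 8 + 15 / 16 * v ^ 10 - 5 / 16 * v ^ 12 =
      1 + x / 2 + 3 / 8 * x ^ 2 + 5 / 16 * x ^ 3 := by
    rw [hx]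
    ring
  have e2 : 1 - v ^ 2 + v ^ 4 = 1 - x := by
    rw [hx]
    ring
  have hq := q_pos v
  rw [e2] at hq
  rw [e1, e2, le_div_iff₀ (Real.sqrt_pos.2 (by linarith))]
  have h2 : (1 + x / 2 + 3 / 8 * x ^ 2 + 5 / 16 * x ^ 3) ^ 2 * (1 - x) ≤ 1 := by
    have e3 : (1 + x / 2 + 3 / 8 * x ^ 2 + 5 / 16 * x ^ 3) ^ 2 * (1 - x) =
        1 - (35 / 64 * x ^ 4 + 14 / 64 * x ^ 5 + 35 / 256 * x ^ 6 + 25 / 256 * x ^ 7) := by ring
    rw [e3]
    have : 0 ≤ 35 / 64 * x ^ 4 + 14 / 64 * x ^ 5 + 35 / 256 * x ^ 6 + 25 / 256 * x ^ 7 := by positivity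
    linarith
  have h3 : (1 + x / 2 + 3 / 8 * x ^ 2 + 5 / 16 * x ^ 3) * √(1 - x) = √((1 + x / 2 + 3 / 8 * x ^ 2 + 5 / 16 * x ^ 3) ^ 2 * (1 - x)) := by
    rw [Real.sqrt_mul (by positivity), Real.sqrt_sq (by positivity)]
  rw [h3]
  calc √((1 + x / 2 + 3 / 8 * x ^ 2 + 5 / 16 * x ^ 3) ^ 2 * (1 - x)) ≤ √1 := Real.sqrt_le_sqrt h2
    _ = 1 := Real.sqrt_one

theorem J_lower : 1.0778 ≤ J := by
  have h1 : ∫ v in (0 : ℝ)..1, (1 + v ^ 2 / 2 - v ^ 4 / 8 - 7 / 16 * v ^ 6 - 9 / 16 * v ^ 8 + 15 / 16 * v ^ 10 - 5 / 16 * v ^ 12) ≤ J := by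
    refine intervalIntegral.integral_mono_on zero_le_one (Continuous.intervalIntegrable (by fun_prop) _ _)
      (phi_cont.intervalIntegrable _ _) fun v hv => phi_lower v hv.1 hv.2
  have h2 : ∫ v in (0 : ℝ)..1, (1 + v ^ 2 / 2 - v ^ 4 / 8 - 7 / 16 * v ^ 6 - 9 / 16 * v ^ 8 + 15 / 16 * v ^ 10 - 5 / 16 * v ^ 12) =
      1 + 1 / 6 - 1 / 40 - 1 / 16 - 1 / 16 + 15 / 176 - 5 / 208 := by
    have h3 : ∀ v ∈ Set.uIcc (0 : ℝ) 1, HasDerivAt (fun v : ℝ => v + 1 / 6 * v ^ 3 - 1 / 40 * v ^ 5 - 1 / 16 * v ^ 7 -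
        1 / 16 * v ^ 9 + 15 / 176 * v ^ 11 - 5 / 208 * v ^ 13)
        (1 + v ^ 2 / 2 - v ^ 4 / 8 - 7 / 16 * v ^ 6 - 9 / 16 * v ^ 8 + 15 / 16 * v ^ 10 - 5 / 16 * v ^ 12) v := by
      intro v _
      have d : ∀ n : ℕ, HasDerivAt (fun v : ℝ => v ^ n) (n * v ^ (n - 1)) v := fun n => hasDerivAt_pow n v
      have h4 := ((((((hasDerivAt_id v).add ((d 3).const_mul (1 / 6))).sub ((d 5).const_mul (1 / 40))).sub
        ((d 7).const_mul (1 / 16))).sub ((d 9).const_mul (1 / 16))).add ((d 11).const_mul (15 / 176))).sub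
        ((d 13).const_mul (5 / 208))
      refine h4.congr_deriv ?_
      norm_num
      ring
    rw [intervalIntegral.integral_eq_sub_of_hasDerivAt h3 (Continuous.intervalIntegrable (by fun_prop) _ _)]
    norm_num
  rw [h2] at h1
  refine le_trans ?_ h1
  norm_num

theorem final (A : Set ℕ) (hA : A.Infinite)
    (hB : ∀ s t : Multiset ℕ, Multiset.card s = 3 → Multiset.card t = 3 →
      (∀ x ∈ s, x ∈ A) → (∀ x ∈ t, x ∈ A) → s.sum = t.sum → s = t)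
    (α : ℝ) (hα : (3 / (4 * (∫ v in (0 : ℝ)..1, 1 / √(1 - v ^ 2 + v ^ 4)) ^ 2)) ^ ((1 : ℝ) / 3) < α) (N : ℕ) :
    ∃ n : ℕ, N ≤ n ∧ ((A ∩ Set.Icc 1 n).ncard : ℝ) < α * (n : ℝ) ^ ((1 : ℝ) / 3) := by
  by_contra hcon
  push Not at hcon
  have hJ : 1.0778 ≤ J := J_lower
  have hJ0 : (0 : ℝ) < J := lt_of_lt_of_le (by norm_num) hJ
  change (3 / (4 * J ^ 2)) ^ ((1 : ℝ) / 3) < α at hα
  have h0 : 0 ≤ (3 / (4 * J ^ 2)) ^ ((1 : ℝ) / 3) := by positivity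
  have hα0 : 0 < α := lt_of_le_of_lt h0 hα
  have h1 := enum_bound A hA hB α hα0 N hcon
  have h2 := pow_lt_pow_left₀ hα h0 (n := 3) (by norm_num)
  rw [← Real.rpow_natCast, ← Real.rpow_mul (by positivity)] at h2
  norm_num at h2
  rw [div_lt_iff₀ (by positivity)] at h2
  linarith

theorem const_lt : (3 / (4 * (∫ v in (0 : ℝ)..1, 1 / √(1 - v ^ 2 + v ^ 4)) ^ 2)) ^ ((1 : ℝ) / 3) < 0.865 := by
  change (3 / (4 * J ^ 2)) ^ ((1 : ℝ) / 3) < 0.865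
  have hJ : 1.0778 ≤ J := J_lower
  have hJ0 : (0 : ℝ) < J := lt_of_lt_of_le (by norm_num) hJ
  have h1 : 3 / (4 * J ^ 2) < 0.865 ^ 3 := by
    rw [div_lt_iff₀ (by positivity)]
    nlinarith
  have h2 : (3 / (4 * J ^ 2)) ^ ((1 : ℝ) / 3) < (0.865 ^ 3 : ℝ) ^ ((1 : ℝ) / 3) :=
    Real.rpow_lt_rpow (by positivity) h1 (by norm_num)
  refine lt_of_lt_of_eq h2 ?_
  rw [← Real.rpow_natCast, ← Real.rpow_mul (by norm_num)]
  norm_num

end Pool.Agent.B3
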